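import Pool.Agent.X145.Sup.Rad

set_option autoImplicit false
open MeasureTheory Filter Topology Matrix

/-!
# MP_44eb1e_pr: the support of the variance-profile deterministic equivalent is a disk

`prof A = (σ_ij²)/n = V`, `rho V` is the spectral radius, `Irr A` is irreducibility (strong
connectivity), `IsSol V s q q̃` says that `(q, q̃)` is a solution in `[0,∞)^n` of the Master
Equations, `FF V q q̃ = 1 - (1/n)⟨q, V q̃⟩` (all from `Pool/Agent/X145/Sup`).

For an irreducible nonnegative `A` let `(q(s), q̃(s))`, `s > 0`, be the selected solutions (nonzero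
for `s < √ρ(V)`; for `s ≥ √ρ(V)` the only solution is `0`, which is proved here), and let `μ` be a
rotation invariant probability measure on `ℂ` with `μ{|z| ≤ s} = F_A(s)` for all `s > 0`.
Then `F_A` is strictly increasing on `(0, √ρ(V))` and the support of `μ` is exactly the closed
disk of radius `√ρ(V)` centred at `0`; in particular it is connected.
-/

namespace Pool.Agent.Results.MP_44eb1e_pr.SupportDisk

open Pool.Agent.X145.Sup

theorem result {n : ℕ} (A : Matrix (Fin n) (Fin n) ℝ) (hA : ∀ i j, 0 ≤ A i j)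
    (hirr : Irr A) (q qt : ℝ → Fin n → ℝ)
    (hsol : ∀ s : ℝ, 0 < s → IsSol (prof A) s (q s) (qt s))
    (hsel : ∀ s : ℝ, 0 < s → s < Real.sqrt (rho (prof A)) → q s ≠ 0)
    (μ : Measure ℂ) [IsProbabilityMeasure μ]
    (hrot : ∀ u : ℂ, ‖u‖ = 1 → μ.map (fun z => u * z) = μ)
    (hF : ∀ s : ℝ, 0 < s → μ.real (Metric.closedBall 0 s) = FF (prof A) (q s) (qt s)) :
    StrictMonoOn (fun s => FF (prof A) (q s) (qt s)) (Set.Ioo 0 (Real.sqrt (rho (prof A)))) ∧
    (∀ s : ℝ, 0 < s → Real.sqrt (rho (prof A)) ≤ s → q s = 0 ∧ qt s = 0) ∧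
    μ.support = Metric.closedBall (0 : ℂ) (Real.sqrt (rho (prof A))) ∧
    IsConnected μ.support := by
  set R := Real.sqrt (rho (prof A)) with hR
  have hR0 : 0 ≤ R := Real.sqrt_nonneg _
  have hmono : ∀ s s', 0 < s → s < s' → s' < R →
      FF (prof A) (q s) (qt s) < FF (prof A) (q s') (qt s') := fun s s' h1 h2 h3 =>
    FF_lt hA hirr h1 h2 (hsol s h1) (hsel s h1 (h2.trans h3)) (hsol s' (h1.trans h2))
      (hsel s' (h1.trans h2) h3)
  have hzero : ∀ s : ℝ, 0 < s → R ≤ s → q s = 0 ∧ qt s = 0 := by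
    intro s hs hRs
    have h1 : q s = 0 := by
      by_contra hq
      have h2 := (hsol s hs).lt_rho hA hirr hs hq
      have h3 : s < R := by
        rw [hR]
        exact Real.lt_sqrt_of_sq_lt h2
      exact absurd hRs (not_le.2 h3)
    refine ⟨h1, ?_⟩
    have h4 := (hsol s hs).sum_eq
    rw [h1] at h4
    simp only [Pi.zero_apply, Finset.sum_const_zero] at h4
    have h5 := (Finset.sum_eq_zero_iff_of_nonneg fun i _ => (hsol s hs).nonneg_qt i).1 h4.symm
    exact funext fun i => h5 i (Finset.mem_univ i)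
  have hfull : μ (Metric.closedBall (0 : ℂ) R)ᶜ = 0 := by
    have h1 : ∀ k : ℕ, μ (Metric.closedBall (0 : ℂ) (R + 1 / ((k : ℝ) + 1)))ᶜ = 0 := by
      intro k
      have hk : 0 < R + 1 / ((k : ℝ) + 1) := by positivity
      have h2 := hF _ hk
      obtain ⟨h3, h4⟩ := hzero _ hk (by linarith [show (0 : ℝ) < 1 / ((k : ℝ) + 1) by positivity])
      rw [h3, h4] at h2
      have h5 : FF (prof A) (0 : Fin n → ℝ) 0 = 1 := by
        unfold FF
        simp
      rw [h5] at h2
      rw [prob_compl_eq_zero_iff Metric.isClosed_closedBall.measurableSet]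
      exact (ENNReal.toReal_eq_one_iff _).1 h2
    have h2 : (Metric.closedBall (0 : ℂ) R)ᶜ ⊆ ⋃ k : ℕ, (Metric.closedBall (0 : ℂ) (R + 1 / ((k : ℝ) + 1)))ᶜ := by
      intro z hz
      simp only [Set.mem_compl_iff, Metric.mem_closedBall, not_le, dist_zero_right] at hz
      obtain ⟨k, hk⟩ := exists_nat_one_div_lt (sub_pos.2 hz)
      refine Set.mem_iUnion.2 ⟨k, ?_⟩
      simp only [Set.mem_compl_iff, Metric.mem_closedBall, not_le, dist_zero_right]
      linarith
    exact measure_mono_null h2 (measure_iUnion_null h1)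
  have hsupp1 : μ.support ⊆ Metric.closedBall (0 : ℂ) R :=
    Measure.support_subset_of_isClosed Metric.isClosed_closedBall (mem_ae_iff.2 hfull)
  -- rotation invariance of the support
  have hsrot : ∀ u z : ℂ, ‖u‖ = 1 → u * z ∈ μ.support → z ∈ μ.support := by
    intro u z hu hz
    rw [Measure.mem_support_iff_forall] at hz ⊢
    intro U hU
    have hu0 : u ≠ 0 := by
      intro h; rw [h, norm_zero] at hu; exact zero_ne_one hu
    have hcont : Continuous (fun w : ℂ => u⁻¹ * w) := continuous_const.mul continuous_id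
    have hpre : (fun w : ℂ => u⁻¹ * w) ⁻¹' (interior U) ∈ 𝓝 (u * z) := by
      refine hcont.continuousAt.preimage_mem_nhds ?_
      rw [← mul_assoc, inv_mul_cancel₀ hu0, one_mul]
      exact interior_mem_nhds.2 hU
    have h1 := hz _ hpre
    have h2 : μ.map (fun w => u⁻¹ * w) = μ := hrot u⁻¹ (by rw [norm_inv, hu, inv_one])
    have h3 : μ (interior U) = μ ((fun w : ℂ => u⁻¹ * w) ⁻¹' (interior U)) := by
      conv_lhs => rw [← h2]
      exact Measure.map_apply hcont.measurable isOpen_interior.measurableSet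
    rw [← h3] at h1
    exact lt_of_lt_of_le h1 (measure_mono interior_subset)
  have hin : ∀ z : ℂ, 0 < ‖z‖ → ‖z‖ < R → z ∈ μ.support := by
    intro z hz0 hzR
    by_contra hz
    have hsph : Metric.sphere (0 : ℂ) ‖z‖ ⊆ μ.supportᶜ := by
      intro w hw hws
      rw [mem_sphere_zero_iff_norm] at hw
      refine hz (hsrot (w / z) z ?_ ?_)
      · rw [norm_div, hw, div_self hz0.ne']
      · rw [div_mul_cancel₀ _ (norm_pos_iff.1 hz0)]
        exact hws
    obtain ⟨δ, hδ, hδs⟩ := (isCompact_sphere (0 : ℂ) ‖z‖).exists_thickening_subset_open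
      Measure.isOpen_compl_support hsph
    obtain ⟨ε, hε, hε1, hε2, hε3⟩ : ∃ ε : ℝ, 0 < ε ∧ ε < δ ∧ ε < ‖z‖ ∧ ‖z‖ + ε < R :=
      ⟨min (δ / 2) (min (‖z‖ / 2) ((R - ‖z‖) / 2)), by
        refine lt_min (by linarith) (lt_min (by linarith) (by linarith)), by
        have := min_le_left (δ / 2) (min (‖z‖ / 2) ((R - ‖z‖) / 2)); linarith, by
        have := min_le_right (δ / 2) (min (‖z‖ / 2) ((R - ‖z‖) / 2))
        have := min_le_left (‖z‖ / 2) ((R - ‖z‖) / 2); linarith, by
        have := min_le_right (δ / 2) (min (‖z‖ / 2) ((R - ‖z‖) / 2))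
        have := min_le_right (‖z‖ / 2) ((R - ‖z‖) / 2); linarith⟩
    have hann : Metric.closedBall (0 : ℂ) (‖z‖ + ε) \ Metric.closedBall (0 : ℂ) (‖z‖ - ε) ⊆
        μ.supportᶜ := by
      intro w hw
      refine hδs ?_
      simp only [Set.mem_sdiff, Metric.mem_closedBall, dist_zero_right, not_le] at hw
      have hw0 : 0 < ‖w‖ := by linarith [hw.2]
      rw [Metric.mem_thickening_iff]
      refine ⟨((‖z‖ / ‖w‖ : ℝ) : ℂ) * w, ?_, ?_⟩
      · rw [mem_sphere_zero_iff_norm, norm_mul, Complex.norm_real, Real.norm_of_nonneg (by positivity),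
          div_mul_cancel₀ _ hw0.ne']
      · rw [dist_eq_norm]
        have e : w - ((‖z‖ / ‖w‖ : ℝ) : ℂ) * w = ((1 - ‖z‖ / ‖w‖ : ℝ) : ℂ) * w := by
          push_cast; ring
        rw [e, norm_mul, Complex.norm_real, Real.norm_eq_abs]
        have e2 : |1 - ‖z‖ / ‖w‖| * ‖w‖ = |‖w‖ - ‖z‖| := by
          rw [← abs_of_pos hw0, ← abs_mul, abs_of_pos hw0]
          congr 1
          field_simp
        rw [e2, abs_lt]
        constructor <;> linarith [hw.1, hw.2]
    have h0 : μ (Metric.closedBall (0 : ℂ) (‖z‖ + ε) \ Metric.closedBall (0 : ℂ) (‖z‖ - ε)) = 0 :=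
      measure_mono_null hann Measure.measure_compl_support
    have hsub : Metric.closedBall (0 : ℂ) (‖z‖ - ε) ⊆ Metric.closedBall (0 : ℂ) (‖z‖ + ε) :=
      Metric.closedBall_subset_closedBall (by linarith)
    have h1 : μ.real (Metric.closedBall (0 : ℂ) (‖z‖ + ε)) ≤ μ.real (Metric.closedBall (0 : ℂ) (‖z‖ - ε)) := by
      have h2 : μ (Metric.closedBall (0 : ℂ) (‖z‖ + ε)) ≤ μ (Metric.closedBall (0 : ℂ) (‖z‖ - ε)) := by
        calc μ (Metric.closedBall (0 : ℂ) (‖z‖ + ε))
            ≤ μ (Metric.closedBall (0 : ℂ) (‖z‖ - ε)) +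
              μ (Metric.closedBall (0 : ℂ) (‖z‖ + ε) \ Metric.closedBall (0 : ℂ) (‖z‖ - ε)) := by
              refine (measure_mono ?_).trans (measure_union_le _ _)
              intro w hw
              by_cases hw2 : w ∈ Metric.closedBall (0 : ℂ) (‖z‖ - ε)
              · exact Or.inl hw2
              · exact Or.inr ⟨hw, hw2⟩
          _ = _ := by rw [h0, add_zero]
      exact ENNReal.toReal_mono (measure_ne_top _ _) h2
    rw [hF _ (by linarith), hF _ (by linarith)] at h1
    exact absurd (hmono _ _ (by linarith) (by linarith) hε3) (not_lt.2 h1)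
  have heq : μ.support = Metric.closedBall (0 : ℂ) R := by
    refine Set.Subset.antisymm hsupp1 ?_
    rcases hR0.eq_or_lt with h0 | h0
    · -- degenerate radius
      rw [← h0, Metric.closedBall_zero]
      intro w hw
      rw [Set.mem_singleton_iff] at hw
      obtain ⟨v, hv⟩ := Measure.nonempty_support (μ := μ) (IsProbabilityMeasure.ne_zero μ)
      have hv2 := hsupp1 hv
      rw [← h0, Metric.closedBall_zero, Set.mem_singleton_iff] at hv2
      rw [hw, ← hv2]
      exact hv
    · have hcl : closure (Metric.ball (0 : ℂ) R \ {0}) ⊆ μ.support := by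
        refine closure_minimal ?_ Measure.isClosed_support
        intro w hw
        obtain ⟨hw1, hw2⟩ := hw
        rw [mem_ball_zero_iff] at hw1
        exact hin w (norm_pos_iff.2 hw2) hw1
      refine Set.Subset.trans ?_ hcl
      have h1 : closure (Metric.ball (0 : ℂ) R \ {0}) = closure (Metric.ball (0 : ℂ) R) := by
        refine Set.Subset.antisymm (closure_mono Set.sdiff_subset) ?_
        refine closure_minimal ?_ isClosed_closure
        intro w hw
        by_cases hw0 : w = 0
        · subst hw0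
          have : (0 : ℂ) ∈ closure (Metric.ball (0 : ℂ) R ∩ {0}ᶜ) := by
            have hd : Dense ({0}ᶜ : Set ℂ) := dense_compl_singleton 0
            exact (hd.open_subset_closure_inter Metric.isOpen_ball) hw
          exact this
        · exact subset_closure ⟨hw, hw0⟩
      rw [h1, closure_ball _ h0.ne']
  refine ⟨fun s hs s' hs' hss => hmono s s' hs.1 hss hs'.2, hzero, heq, ?_⟩
  rw [heq]
  exact ⟨⟨0, Metric.mem_closedBall_self hR0⟩,
    (convex_closedBall (0 : ℂ) R).isPreconnected⟩

end Pool.Agent.Results.MP_44eb1e_pr.SupportDisk
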